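import Pool.Agent.H670Ham.Defs

set_option autoImplicit false

namespace Pool.Agent.H670Ham

open Equiv

/-! ### Circuits and lists -/

/-- the arcs of the cyclic order 0, l -/
def arcs (l : List (Fin 7)) : List (Fin 7 × Fin 7) := List.zip (0 :: l) (l ++ [0])

/-- the cyclic orders of seven points -/
def P : List (List (Fin 7)) := List.permutations' [1, 2, 3, 4, 5, 6]

/-- the list of a permutation -/
def toL (v : Perm (Fin 7)) : List (Fin 7) := [v 1, v 2, v 3, v 4, v 5, v 6]

theorem P_nodup : P.Nodup := by decide +kernel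

theorem toL_mem (v : Perm (Fin 7)) (h : v 0 = 0) : toL v ∈ P := by
  unfold P toL
  rw [List.mem_permutations']
  rw [List.perm_ext_iff_of_nodup]
  · intro x
    constructor
    · intro hx
      have hx0 : x ≠ 0 := by
        rintro rfl
        simp only [List.mem_cons, List.not_mem_nil, or_false] at hx
        rcases hx with hx | hx | hx | hx | hx | hx <;>
          · rw [← h] at hx
            have := v.injective hx
            revert this
            decide
      revert hx0
      clear hx
      revert x
      decide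
    · intro hx
      obtain ⟨j, rfl⟩ := v.surjective x
      have hj : j ≠ 0 := by
        rintro rfl
        rw [h] at hx
        revert hx
        decide
      clear hx
      revert hj
      fin_cases j <;> simp
  · simp [v.injective.eq_iff]
  · decide

theorem toL_inj (v w : Perm (Fin 7)) (hv : v 0 = 0) (hw : w 0 = 0) (h : toL v = toL w) :
    v = w := by
  simp only [toL, List.cons.injEq, and_true] at h
  obtain ⟨h1, h2, h3, h4, h5, h6⟩ := h
  ext j
  fin_cases j <;> simp_all

theorem toL_surj (l : List (Fin 7)) (h : l ∈ P) : ∃ v : Perm (Fin 7), v 0 = 0 ∧ toL v = l := by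
  unfold P at h
  rw [List.mem_permutations'] at h
  have hlen : l.length = 6 := h.length_eq
  have hnd : l.Nodup := h.nodup_iff.2 (by decide)
  have h0 : (0 : Fin 7) ∉ l := by
    intro h0
    rw [h.mem_iff] at h0
    revert h0
    decide
  match l, hlen with
  | [a, b, c, d, e, f], _ =>
    have hnd' : (0 :: [a, b, c, d, e, f] : List (Fin 7)).Nodup := List.nodup_cons.2 ⟨h0, hnd⟩
    have hinj : Function.Injective ![(0 : Fin 7), a, b, c, d, e, f] := by
      intro i j hij
      simp only [List.nodup_cons, List.mem_cons, List.not_mem_nil, or_false, not_or,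
        List.nodup_nil, and_true, not_false_eq_true] at hnd'
      obtain ⟨⟨h1, h2, h3, h4, h5, h6⟩, ⟨h7, h8, h9, h10, h11⟩, ⟨h12, h13, h14, h15⟩,
        ⟨h16, h17, h18⟩, ⟨h19, h20⟩, h21⟩ := hnd'
      fin_cases i <;> fin_cases j <;> simp_all
    exact ⟨Equiv.ofBijective _ (Finite.injective_iff_bijective.1 hinj), rfl, rfl⟩

theorem arcs_toL (v : Perm (Fin 7)) (hv : v 0 = 0) (p : Fin 7 → Fin 7 → Prop) :
    (∀ x ∈ arcs (toL v), p x.1 x.2) ↔ ∀ i, p (v i) (v (finRotate 7 i)) := by
  simp only [arcs, toL, List.cons_append, List.nil_append, List.zip_cons_cons, List.zip_nil_right,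
    List.mem_cons, List.not_mem_nil, or_false, forall_eq_or_imp, forall_eq]
  have key : (∀ i, p (v i) (v (finRotate 7 i))) ↔
      (p (v 0) (v 1) ∧ p (v 1) (v 2) ∧ p (v 2) (v 3) ∧ p (v 3) (v 4) ∧ p (v 4) (v 5) ∧
        p (v 5) (v 6) ∧ p (v 6) (v 0)) := by
    constructor
    · intro h
      exact ⟨h 0, h 1, h 2, h 3, h 4, h 5, h 6⟩
    · rintro ⟨h0, h1, h2, h3, h4, h5, h6⟩ i
      fin_cases i
      · exact h0
      · exact h1
      · exact h2
      · exact h3
      · exact h4
      · exact h5
      · exact h6
  rw [key, hv]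

/-- the cyclic order `l` is a circuit of `T` -/
def Good (T : Tournament (Fin 7)) (l : List (Fin 7)) : Prop := ∀ x ∈ arcs l, T.arc x.1 x.2

open Classical in
theorem hamCount_eq (T : Tournament (Fin 7)) :
    hamCount T = P.countP (fun l => decide (Good T l)) := by
  set F : Finset (Perm (Fin 7)) := Finset.univ.filter
    (fun v => v 0 = 0 ∧ ∀ i, T.arc (v i) (v (finRotate 7 i))) with hF
  have h1 : {C : Set (Fin 7 × Fin 7) | IsHamCircuit T C} =
      (fun v : Perm (Fin 7) => Set.range fun i => (v i, v (finRotate 7 i))) '' (F : Set _) := by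
    ext C
    constructor
    · rintro ⟨v, hv, rfl⟩
      refine ⟨(Equiv.addRight (v.symm 0)).trans v, ?_, ?_⟩
      · rw [hF, Finset.mem_coe, Finset.mem_filter]
        refine ⟨Finset.mem_univ _, ?_, fun i => ?_⟩
        · simp
        · have := hv (i + v.symm 0)
          simp only [Equiv.trans_apply, Equiv.coe_addRight, finRotate_succ_apply] at this ⊢
          rw [add_right_comm]
          exact this
      · ext x
        simp only [Set.mem_range, Equiv.trans_apply, Equiv.coe_addRight, finRotate_succ_apply]
        constructor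
        · rintro ⟨i, rfl⟩
          exact ⟨i + v.symm 0, by rw [add_right_comm]⟩
        · rintro ⟨i, rfl⟩
          exact ⟨i - v.symm 0, by rw [add_right_comm, sub_add_cancel]⟩
    · rintro ⟨v, hv, rfl⟩
      rw [hF, Finset.mem_coe, Finset.mem_filter] at hv
      exact ⟨v, hv.2.2, rfl⟩
  have h2 : Set.InjOn (fun v : Perm (Fin 7) => Set.range fun i => (v i, v (finRotate 7 i)))
      (F : Set _) := by
    intro v hv w hw hvw
    rw [hF, Finset.mem_coe, Finset.mem_filter] at hv hw
    have key : ∀ i : Fin 7, v i = w i → v (i + 1) = w (i + 1) := by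
      intro i hi
      have : (v i, v (finRotate 7 i)) ∈ Set.range fun i => (w i, w (finRotate 7 i)) := by
        rw [← show (Set.range fun i => (v i, v (finRotate 7 i))) =
          Set.range fun i => (w i, w (finRotate 7 i)) from hvw]
        exact ⟨i, rfl⟩
      obtain ⟨j, hj⟩ := this
      simp only [Prod.mk.injEq, finRotate_succ_apply] at hj
      have hij : j = i := w.injective (hj.1.trans hi)
      subst hij
      exact hj.2.symm
    have k0 : v 0 = w 0 := hv.2.1.trans hw.2.1.symm
    have k1 := key 0 k0
    have k2 := key _ k1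
    have k3 := key _ k2
    have k4 := key _ k3
    have k5 := key _ k4
    have k6 := key _ k5
    ext i
    congr 1
    fin_cases i
    · exact k0
    · exact k1
    · exact k2
    · exact k3
    · exact k4
    · exact k5
    · exact k6
  have h3 : hamCount T = F.card := by
    unfold hamCount
    rw [h1, Set.InjOn.ncard_image h2, Set.ncard_coe_finset]
  rw [h3, List.countP_eq_length_filter,
    ← List.toFinset_card_of_nodup (P_nodup.filter _)]
  refine Finset.card_bij (fun v _ => toL v) ?_ ?_ ?_
  · intro v hv
    rw [hF, Finset.mem_filter] at hv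
    rw [List.mem_toFinset, List.mem_filter]
    refine ⟨toL_mem v hv.2.1, ?_⟩
    rw [decide_eq_true_eq]
    exact (arcs_toL v hv.2.1 T.arc).2 hv.2.2
  · intro v hv w hw h
    rw [hF, Finset.mem_filter] at hv hw
    exact toL_inj v w hv.2.1 hw.2.1 h
  · intro l hl
    rw [List.mem_toFinset, List.mem_filter, decide_eq_true_eq] at hl
    obtain ⟨v, hv, rfl⟩ := toL_surj l hl.1
    refine ⟨v, ?_, rfl⟩
    rw [hF, Finset.mem_filter]
    exact ⟨Finset.mem_univ _, hv, (arcs_toL v hv T.arc).1 hl.2⟩

/-! ### Relabelling -/

/-- relabelled tournament -/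
def relabel {n : ℕ} (T : Tournament (Fin n)) (e : Perm (Fin n)) : Tournament (Fin n) where
  arc u v := T.arc (e u) (e v)
  irrefl v := T.irrefl _
  total u v h := T.total _ _ (fun h' => h (e.injective h'))
  asymm u v h := T.asymm _ _ h

theorem hamCount_relabel {n : ℕ} (T : Tournament (Fin n)) (e : Perm (Fin n)) :
    hamCount (relabel T e) = hamCount T := by
  unfold hamCount
  have : {C : Set (Fin n × Fin n) | IsHamCircuit T C} =
      (fun C : Set (Fin n × Fin n) => Prod.map e e '' C) ''
        {C | IsHamCircuit (relabel T e) C} := by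
    ext C
    constructor
    · rintro ⟨v, hv, rfl⟩
      refine ⟨Set.range fun i => ((v.trans e.symm) i, (v.trans e.symm) (finRotate n i)),
        ⟨v.trans e.symm, fun i => ?_, rfl⟩, ?_⟩
      · show T.arc (e (e.symm (v i))) (e (e.symm (v (finRotate n i))))
        rw [Equiv.apply_symm_apply, Equiv.apply_symm_apply]
        exact hv i
      · show Prod.map e e '' _ = _
        rw [← Set.range_comp]
        congr 1
        funext i
        simp
    · rintro ⟨C', ⟨v, hv, rfl⟩, rfl⟩
      refine ⟨v.trans e, fun i => hv i, ?_⟩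
      show Prod.map e e '' _ = _
      rw [← Set.range_comp]
      rfl
  rw [this, Set.ncard_image_of_injective]
  exact Set.image_injective.2 (e.injective.prodMap e.injective)

open Classical in
/-- a relabelling in which the vertex 0 beats exactly the vertices 1, ..., d with d at most 3 -/
theorem exists_relabel (T : Tournament (Fin 7)) : ∃ (e : Perm (Fin 7)) (d : ℕ), d ≤ 3 ∧
    ∀ i : Fin 7, (relabel T e).arc 0 i ↔ (1 ≤ i.val ∧ i.val ≤ d) := by
  -- a vertex of out-degree at most 3
  obtain ⟨v, hv⟩ : ∃ v : Fin 7, (Finset.univ.filter (fun u => T.arc v u)).card ≤ 3 := by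
    by_contra hcon
    push Not at hcon
    have h1 : 28 ≤ ∑ v : Fin 7, (Finset.univ.filter (fun u => T.arc v u)).card := by
      calc 28 = ∑ v : Fin 7, 4 := by simp
        _ ≤ _ := Finset.sum_le_sum (fun v _ => hcon v)
    have h2 : ∀ v, (Finset.univ.filter (fun u => T.arc v u)).card +
        (Finset.univ.filter (fun u => T.arc u v)).card ≤ 6 := by
      intro v
      rw [← Finset.card_union_of_disjoint]
      · calc _ ≤ (Finset.univ.erase v).card := by
              refine Finset.card_le_card ?_
              intro u hu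
              rw [Finset.mem_union, Finset.mem_filter, Finset.mem_filter] at hu
              rw [Finset.mem_erase]
              refine ⟨?_, Finset.mem_univ _⟩
              rintro rfl
              rcases hu with hu | hu
              · exact T.irrefl _ hu.2
              · exact T.irrefl _ hu.2
          _ = 6 := by simp
      · rw [Finset.disjoint_left]
        intro u hu hu'
        rw [Finset.mem_filter] at hu hu'
        exact T.asymm _ _ hu.2 hu'.2
    have h3 : ∑ v : Fin 7, (Finset.univ.filter (fun u => T.arc v u)).card =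
        ∑ v : Fin 7, (Finset.univ.filter (fun u => T.arc u v)).card := by
      simp only [Finset.card_filter]
      exact Finset.sum_comm
    have h4 : ∑ v : Fin 7, ((Finset.univ.filter (fun u => T.arc v u)).card +
        (Finset.univ.filter (fun u => T.arc u v)).card) ≤ ∑ v : Fin 7, 6 :=
      Finset.sum_le_sum (fun v _ => h2 v)
    rw [Finset.sum_add_distrib, ← h3] at h4
    simp only [Finset.sum_const, Finset.card_univ, Fintype.card_fin, smul_eq_mul] at h4
    omega
  set d := (Finset.univ.filter (fun u => T.arc v u)).card with hd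
  -- first move v to 0
  set T1 := relabel T (swap 0 v) with hT1
  have hcard : Fintype.card {i : Fin 7 // 1 ≤ i.val ∧ i.val ≤ d} =
      Fintype.card {u : Fin 7 // T1.arc 0 u} := by
    have e1 : Fintype.card {u : Fin 7 // T1.arc 0 u} = d := by
      rw [hd, ← Fintype.card_subtype]
      refine Fintype.card_congr ?_
      refine (swap 0 v).subtypeEquiv ?_
      intro u
      show T.arc (swap 0 v 0) (swap 0 v u) ↔ T.arc v (swap 0 v u)
      rw [swap_apply_left]
    rw [e1, Fintype.card_subtype]
    have : d = 0 ∨ d = 1 ∨ d = 2 ∨ d = 3 := by omega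
    rcases this with h | h | h | h <;> rw [h] <;> decide
  obtain ⟨ε⟩ : Nonempty ({i : Fin 7 // 1 ≤ i.val ∧ i.val ≤ d} ≃ {u : Fin 7 // T1.arc 0 u}) :=
    ⟨Fintype.equivOfCardEq hcard⟩
  set π := ε.extendSubtype with hπ
  have p1 : ∀ i : Fin 7, (1 ≤ i.val ∧ i.val ≤ d) → T1.arc 0 (π i) := by
    intro i hi
    exact ε.extendSubtype_mem i hi
  have p2 : ∀ i : Fin 7, ¬ (1 ≤ i.val ∧ i.val ≤ d) → ¬ T1.arc 0 (π i) := by
    intro i hi
    exact ε.extendSubtype_not_mem i hi
  have hπ0 : ¬ T1.arc 0 (π 0) := p2 0 (by simp)
  have p3 : ∀ u, T1.arc 0 (swap (π 0) 0 u) ↔ T1.arc 0 u := by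
    intro u
    by_cases hu : u = π 0
    · rw [hu, swap_apply_left]
      exact ⟨fun h => absurd h (T1.irrefl 0), fun h => absurd h hπ0⟩
    · by_cases hu0 : u = 0
      · rw [hu0, swap_apply_right]
        exact ⟨fun h => absurd h hπ0, fun h => absurd h (T1.irrefl 0)⟩
      · rw [swap_apply_of_ne_of_ne hu hu0]
  refine ⟨(π.trans (swap (π 0) 0)).trans (swap 0 v), d, hv, fun i => ?_⟩
  have : (relabel T ((π.trans (swap (π 0) 0)).trans (swap 0 v))).arc 0 i ↔
      T1.arc (swap (π 0) 0 (π 0)) (swap (π 0) 0 (π i)) := Iff.rfl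
  rw [this, swap_apply_left, p3]
  by_cases hi : 1 ≤ i.val ∧ i.val ≤ d
  · exact ⟨fun _ => hi, fun _ => p1 i hi⟩
  · exact ⟨fun h => absurd h (p2 i hi), fun h => absurd h hi⟩

end Pool.Agent.H670Ham
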