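import Mathlib

/-!
# Tournaments and their Hamiltonian circuits
-/

set_option autoImplicit false

namespace Pool.Agent.H670Ham

/-- A tournament on the vertex set `V`: an orientation of the complete graph on `V`. -/
structure Tournament (V : Type) where
  /-- `arc u v` means that the edge joining `u` and `v` is oriented from `u` to `v` -/
  arc : V → V → Prop
  irrefl : ∀ v, ¬ arc v v
  total : ∀ u v, u ≠ v → arc u v ∨ arc v u
  asymm : ∀ u v, arc u v → ¬ arc v u

/-- `C` is the arc set of a Hamiltonian circuit of the `n`-tournament `T`: the arcs of a directed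
cycle `v 0 → v 1 → ... → v (n-1) → v 0` through all vertices
(`finRotate n` sends `i` to `i + 1` and `n - 1` to `0`). -/
def IsHamCircuit {n : ℕ} (T : Tournament (Fin n)) (C : Set (Fin n × Fin n)) : Prop :=
  ∃ v : Fin n ≃ Fin n, (∀ i, T.arc (v i) (v (finRotate n i))) ∧
    C = Set.range fun i => (v i, v (finRotate n i))

/-- the number of distinct Hamiltonian circuits -/
noncomputable def hamCount {n : ℕ} (T : Tournament (Fin n)) : ℕ :=
  Set.ncard {C : Set (Fin n × Fin n) | IsHamCircuit T C}

/-- the largest number of distinct Hamiltonian circuits of an `n`-tournament -/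
noncomputable def ho (n : ℕ) : ℕ := sSup {h : ℕ | ∃ T : Tournament (Fin n), hamCount T = h}

end Pool.Agent.H670Ham
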