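import Pool.Agent.H670Ham.Search

set_option autoImplicit false

namespace Pool.Agent.H670Ham

/-- the bit of a code which belongs to a pair -/
def bitOf (c : ℕ) (a b : Fin 7) : Bool := Nat.testBit c (b.val * (b.val - 1) / 2 + a.val)

/-- arcs given by a code -/
def arcOf (c : ℕ) (a b : Fin 7) : Bool :=
  (decide (a < b) && bitOf c a b) || (decide (b < a) && !bitOf c b a)

/-- the tournament of a code -/
def ofCode (c : ℕ) : Tournament (Fin 7) where
  arc a b := arcOf c a b = true
  irrefl a := by simp [arcOf]
  total a b h := by
    unfold arcOf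
    rcases lt_or_gt_of_ne h with h' | h'
    · have h'' : ¬ b < a := lt_asymm h'
      cases bitOf c a b <;> simp [h', h'']
    · have h'' : ¬ a < b := lt_asymm h'
      cases bitOf c b a <;> simp [h', h'']
  asymm a b h := by
    unfold arcOf at *
    rcases lt_trichotomy a b with h' | h' | h'
    · have h'' : ¬ b < a := lt_asymm h'
      revert h
      cases bitOf c a b <;> simp [h', h'']
    · subst h'
      simp at h
    · have h'' : ¬ a < b := lt_asymm h'
      revert h
      cases bitOf c b a <;> simp [h', h'']

theorem ofCode_count (c : ℕ) : hamCount (ofCode c) =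
    P.countP (fun l => (arcs l).all fun x => arcOf c x.1 x.2) := by
  classical
  rw [hamCount_eq]
  refine List.countP_congr ?_
  intro l _
  rw [decide_eq_true_eq, List.all_eq_true]
  rfl

theorem counts : ([132344, 281782, 907578, 1193707, 1682471, 942651, 1039002, 1513179, 1601751,
    1559716, 209715, 1777197, 1439660, 1595853, 1969575, 1239738, 894781, 1731447].map
      fun c => P.countP (fun l => (arcs l).all fun x => arcOf c x.1 x.2)) =
    [0, 1, 2, 3, 4, 5, 6, 7, 8, 9, 10, 11, 12, 13, 14, 15, 17, 24] := by
  decide +kernel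

theorem exists_count (h : ℕ) (hh : h ≤ 15 ∨ h = 17 ∨ h = 24) :
    ∃ T : Tournament (Fin 7), hamCount T = h := by
  have key : h ∈ ([132344, 281782, 907578, 1193707, 1682471, 942651, 1039002, 1513179, 1601751,
    1559716, 209715, 1777197, 1439660, 1595853, 1969575, 1239738, 894781, 1731447].map
      fun c => P.countP (fun l => (arcs l).all fun x => arcOf c x.1 x.2)) := by
    rw [counts]
    rcases hh with hh | rfl | rfl
    · interval_cases h <;> decide
    · decide
    · decide
  rw [List.mem_map] at key
  obtain ⟨c, _, hc⟩ := key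
  exact ⟨ofCode c, by rw [ofCode_count]; exact hc⟩

theorem realised (h : ℕ) :
    (∃ T : Tournament (Fin 7), hamCount T = h) ↔ h ≤ 15 ∨ h = 17 ∨ h = 24 := by
  constructor
  · rintro ⟨T, rfl⟩
    exact main T
  · exact exists_count h

theorem ho_seven : ho 7 = 24 := by
  unfold ho
  refine IsGreatest.csSup_eq ⟨(realised 24).2 (by omega), ?_⟩
  rintro h ⟨T, rfl⟩
  have := main T
  omega

end Pool.Agent.H670Ham
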