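import Pool.Agent.H670Ham.Data

set_option autoImplicit false

namespace Pool.Agent.H670Ham

theorem enc_mod {α : Type} (f : α → Bool) (l : List α) :
    enc (l.map f) % 1023 = l.countP f % 1023 := by
  induction l with
  | nil => rfl
  | cons a l ih =>
    rw [List.map_cons, List.countP_cons]
    show (cond (f a) 1 0 + 1024 * enc (l.map f)) % 1023 = _
    cases h : f a
    · simp only [cond_false, if_false, Bool.false_eq_true]
      omega
    · simp only [cond_true, if_true]
      omega

theorem enc_land {α : Type} (f g : α → Bool) (l : List α) :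
    enc (l.map fun a => f a && g a) = Nat.land (enc (l.map f)) (enc (l.map g)) := by
  show _ = enc (l.map f) &&& enc (l.map g)
  induction l with
  | nil => exact (Nat.zero_and 0).symm
  | cons a l ih =>
    rw [List.map_cons, List.map_cons, List.map_cons]
    show cond (f a && g a) 1 0 + 1024 * enc (l.map fun a => f a && g a) =
      (cond (f a) 1 0 + 1024 * enc (l.map f)) &&& (cond (g a) 1 0 + 1024 * enc (l.map g))
    rw [ih]
    generalize enc (l.map f) = x
    generalize enc (l.map g) = y
    set N := (cond (f a) 1 0 + 1024 * x) &&& (cond (g a) 1 0 + 1024 * y) with hN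
    have h1 : N / 2 ^ 10 = x &&& y := by
      rw [hN, Nat.and_div_two_pow]
      congr 1
      · cases f a <;> simp only [cond_true, cond_false] <;> omega
      · cases g a <;> simp only [cond_true, cond_false] <;> omega
    have h2 : N % 2 ^ 10 = cond (f a && g a) 1 0 := by
      rw [hN, Nat.and_mod_two_pow]
      have e1 : (cond (f a) 1 0 + 1024 * x) % 2 ^ 10 = cond (f a) 1 0 := by
        cases f a <;> simp only [cond_true, cond_false] <;> omega
      have e2 : (cond (g a) 1 0 + 1024 * y) % 2 ^ 10 = cond (g a) 1 0 := by
        cases g a <;> simp only [cond_true, cond_false] <;> omega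
      rw [e1, e2]
      cases f a <;> cases g a <;> rfl
    rw [← h2, ← h1]
    have := Nat.mod_add_div N (2 ^ 10)
    omega

theorem countP_of_enc {α : Type} (f : α → Bool) (l : List α) (hl : l.length ≤ 1000) :
    Nat.mod (enc (l.map f)) 1023 = l.countP f := by
  show enc (l.map f) % 1023 = _
  rw [enc_mod]
  have := List.countP_le_length (p := f) (l := l)
  omega

/-- the condition of a pair -/
def cnd (t : Fin 7 → Fin 7 → Bool) (l : List (Fin 7)) (p : Fin 7 × Fin 7) : Bool :=
  cond (t p.1 p.2) (!(arcs l).contains (p.2, p.1)) (!(arcs l).contains (p.1, p.2))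

theorem srch_sound (d : ℕ) (hd : (Q d).length ≤ 1000) (t : Fin 7 → Fin 7 → Bool) :
    ∀ (ps : List (Fin 7 × Fin 7)) (f : List (Fin 7) → Bool),
    srch (ps.map (mk d)) (enc ((Q d).map f)) = true →
    ok ((Q d).countP fun l => f l && ps.all (cnd t l)) = true := by
  intro ps
  induction ps with
  | nil =>
    intro f h
    have h' : ok (Nat.mod (enc ((Q d).map f)) 1023) = true := h
    rw [countP_of_enc f _ hd] at h'
    simpa using h'
  | cons p ps ih =>
    intro f h
    have h' : (Nat.ble (Nat.mod (enc ((Q d).map f)) 1023) 15 ||
      (srch (ps.map (mk d)) (Nat.land (enc ((Q d).map f)) (mk d p).1) &&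
        srch (ps.map (mk d)) (Nat.land (enc ((Q d).map f)) (mk d p).2))) = true := h
    rw [countP_of_enc f _ hd, Bool.or_eq_true, Bool.and_eq_true] at h'
    rcases h' with h' | ⟨h1, h2⟩
    · have h3 : (Q d).countP f ≤ 15 := Nat.le_of_ble_eq_true h'
      have h4 : (Q d).countP (fun l => f l && (p :: ps).all (cnd t l)) ≤ 15 := by
        refine le_trans (List.countP_mono_left ?_) h3
        intro l _ hl
        rw [Bool.and_eq_true] at hl
        exact hl.1
      unfold ok
      rw [Bool.or_eq_true]
      left
      exact Nat.ble_eq_true_of_le h4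
    · cases ht : t p.1 p.2
      · have h5 : srch (ps.map (mk d)) (enc ((Q d).map fun l => f l &&
            !(arcs l).contains (p.1, p.2))) = true := by
          rw [enc_land]
          exact h2
        have h6 := ih _ h5
        convert h6 using 4 with l
        rw [List.all_cons]
        unfold cnd
        rw [ht, cond_false, Bool.and_assoc]
      · have h5 : srch (ps.map (mk d)) (enc ((Q d).map fun l => f l &&
            !(arcs l).contains (p.2, p.1))) = true := by
          rw [enc_land]
          exact h1
        have h6 := ih _ h5
        convert h6 using 4 with l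
        rw [List.all_cons]
        unfold cnd
        rw [ht, cond_true, Bool.and_assoc]

theorem arcs_ne : ∀ l ∈ P, ∀ x ∈ arcs l, x.1 ≠ x.2 := by decide +kernel

theorem arcs_ends : ∀ l ∈ P, (0, l.headD 0) ∈ arcs l ∧ (l.getLastD 0, 0) ∈ arcs l ∧
    l.headD 0 ≠ 0 ∧ l.getLastD 0 ≠ 0 := by decide +kernel

theorem arcs_zero : ∀ l ∈ P, ∀ x ∈ arcs l, (x.1 = 0 → x.2 = l.headD 0) ∧
    (x.2 = 0 → x.1 = l.getLastD 0) := by decide +kernel

theorem prs_mem : ∀ a b : Fin 7, a ≠ 0 → b ≠ 0 → a ≠ b → (a, b) ∈ prs ∨ (b, a) ∈ prs := by
  decide

theorem prs_ne : ∀ p ∈ prs, p.1 ≠ p.2 := by decide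

open Classical in
theorem main_ok (T : Tournament (Fin 7)) : ok (hamCount T) = true := by
  obtain ⟨e, d, hd, hT⟩ := exists_relabel T
  rw [← hamCount_relabel T e]
  set S := relabel T e with hS
  clear_value S
  rw [hamCount_eq]
  by_cases h0 : d = 0
  · have : P.countP (fun l => decide (Good S l)) = 0 := by
      rw [List.countP_eq_zero]
      intro l hl h
      rw [decide_eq_true_eq] at h
      have h1 := h _ (arcs_ends l hl).1
      rw [show (((0 : Fin 7), l.headD 0) : Fin 7 × Fin 7).1 = 0 from rfl,
        show (((0 : Fin 7), l.headD 0) : Fin 7 × Fin 7).2 = l.headD 0 from rfl, hT] at h1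
      omega
    rw [this]
    rfl
  · have hd1 : 1 ≤ d := by omega
    have hs := srch_sound d (Q_length d hd1 hd) (fun a b => decide (S.arc a b)) prs
      (fun _ => true) (srch_all d hd1 hd)
    convert hs using 1
    unfold Q
    rw [List.countP_filter]
    congr 1
    refine List.countP_congr ?_
    intro l hl
    rw [decide_eq_true_eq]
    simp only [Bool.true_and, Bool.and_eq_true, List.all_eq_true]
    have h0out : ∀ b : Fin 7, b ≠ 0 → (S.arc 0 b ↔ b.val ≤ d) := by
      intro b hb
      rw [hT]
      have : b.val ≠ 0 := fun h => hb (Fin.ext h)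
      constructor
      · intro h; exact h.2
      · intro h; exact ⟨by omega, h⟩
    have h0in : ∀ b : Fin 7, b ≠ 0 → (S.arc b 0 ↔ d < b.val) := by
      intro b hb
      constructor
      · intro h
        by_contra hlt
        exact S.asymm _ _ h ((h0out b hb).2 (by omega))
      · intro h
        rcases S.total 0 b (Ne.symm hb) with h' | h'
        · rw [h0out b hb] at h'
          omega
        · exact h'
    obtain ⟨e1, e2, e3, e4⟩ := arcs_ends l hl
    constructor
    · intro hg
      refine ⟨?_, ?_, ?_⟩
      · intro p hp
        unfold cnd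
        by_cases ht : S.arc p.1 p.2
        · simp only [ht, decide_true, cond_true, Bool.not_eq_true', List.contains_eq_mem,
            decide_eq_false_iff_not]
          intro hmem
          exact S.asymm _ _ ht (hg _ hmem)
        · simp only [ht, decide_false, cond_false, Bool.not_eq_true', List.contains_eq_mem,
            decide_eq_false_iff_not]
          intro hmem
          exact ht (hg _ hmem)
      · exact Nat.ble_eq_true_of_le ((h0out _ e3).1 (hg _ e1))
      · exact Nat.ble_eq_true_of_le ((h0in _ e4).1 (hg _ e2))
    · rintro ⟨hall, hb1, hb2⟩ x hx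
      have hne := arcs_ne l hl x hx
      obtain ⟨z1, z2⟩ := arcs_zero l hl x hx
      by_cases hx1 : x.1 = 0
      · rw [hx1, z1 hx1, h0out _ e3]
        exact Nat.le_of_ble_eq_true hb1
      · by_cases hx2 : x.2 = 0
        · rw [hx2, z2 hx2, h0in _ e4]
          exact Nat.le_of_ble_eq_true hb2
        · by_contra hnot
          have hrev : S.arc x.2 x.1 := by
            rcases S.total _ _ hne with h | h
            · exact absurd h hnot
            · exact h
          rcases prs_mem _ _ hx1 hx2 hne with hp | hp
          · have := hall _ hp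
            unfold cnd at this
            simp only [hnot, decide_false, cond_false, Bool.not_eq_true', List.contains_eq_mem,
              decide_eq_false_iff_not] at this
            exact this hx
          · have := hall _ hp
            unfold cnd at this
            simp only [hrev, decide_true, cond_true, Bool.not_eq_true', List.contains_eq_mem,
              decide_eq_false_iff_not] at this
            exact this hx

theorem main (T : Tournament (Fin 7)) : hamCount T ≤ 15 ∨ hamCount T = 17 ∨ hamCount T = 24 := by
  have h := main_ok T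
  unfold ok at h
  rw [Bool.or_eq_true, Bool.or_eq_true] at h
  rcases h with h | h | h
  · exact Or.inl (Nat.le_of_ble_eq_true h)
  · exact Or.inr (Or.inl (Nat.eq_of_beq_eq_true h))
  · exact Or.inr (Or.inr (Nat.eq_of_beq_eq_true h))

end Pool.Agent.H670Ham
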